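import Pool.Agent.Helper58.QD.StG
import Pool.Agent.Helper48.LH.M_SEG

/-! # Project QD: segment inequality on a ball -/

set_option autoImplicit false
set_option maxSynthPendingDepth 3

open Set Filter Topology MeasureTheory
open scoped ContDiff ENNReal

noncomputable section

namespace Pool.Agent.Helper69.QD

open Helper62.LH Helper62.DSH Helper58.QD

/-- the estimate with one end point fixed -/
lemma one_Sgb {n : ℕ} {g : E n → Bl n} {Γ : E n → Bm n} (hMet : StMet) (hSga : StSga)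
    (hg : IsMet g) (hΓ : IsChr g Γ) (hc : Cpl g) (hS : Sec g Γ)
    (hop : ∀ x : E n, ∀ r, IsOpen (Ba g x r)) {h : E n → ℝ} (hh : Continuous h) {z : E n} {r : ℝ}
    (t : ℝ) (ht : t ∈ Icc (1 / 2 : ℝ) 1) (x : E n) (hx : x ∈ Ba g z r) :
    ∫⁻ y in Ba g z r, HS g h t x y ∂(mg g) ≤
      2 ^ n * ∫⁻ y in Ba g z (3 * r), ENNReal.ofReal (h y) ∂(mg g) := by
  obtain ⟨-, -, hnn, -, hsym, htri⟩ := hMet n g hg
  have hx' : dg g z x < r := hx
  have h1 : Ba g z r ⊆ Ba g x (2 * r) := by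
    intro y hy
    have hy' : dg g z y < r := hy
    show dg g x y < 2 * r
    have := htri x z y
    rw [hsym x z] at this
    linarith
  have h2 : Ba g x (2 * r) ⊆ Ba g z (3 * r) := by
    intro y hy
    have hy' : dg g x y < 2 * r := hy
    show dg g z y < 3 * r
    have := htri z x y
    linarith
  have h3 : ∀ y ∈ Ba g x (2 * r), Gt g t x y ⊆ Ba g x (2 * r) := by
    intro y hy w hw
    have hy' : dg g x y < 2 * r := hy
    have hw' : dg g x w = t * dg g x y := hw.1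
    show dg g x w < 2 * r
    rw [hw']
    have h4 : t * dg g x y ≤ 1 * dg g x y := mul_le_mul_of_nonneg_right ht.2 (hnn x y)
    linarith
  calc ∫⁻ y in Ba g z r, HS g h t x y ∂(mg g)
      ≤ ∫⁻ y in Ba g x (2 * r), HS g h t x y ∂(mg g) := lintegral_mono_set h1
    _ ≤ 2 ^ n * ∫⁻ y in Ba g x (2 * r), ENNReal.ofReal (h y) ∂(mg g) :=
        hSga n g Γ hg hΓ hc hS h hh x t ht _ (hop x (2 * r)).measurableSet h3
    _ ≤ 2 ^ n * ∫⁻ y in Ba g z (3 * r), ENNReal.ofReal (h y) ∂(mg g) :=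
        mul_le_mul_right (lintegral_mono_set h2) _

/-- module SGB of project QD -/
theorem hSgb (hMet : StMet) (hUsc : StUsc) (hSga : StSga) (hBal : SBal) : SSgb := by
  intro n g Γ hg hΓ hc hS h hh z r _
  obtain ⟨-, -, -, -, hsym, -⟩ := hMet n g hg
  have hop : ∀ x : E n, ∀ r, IsOpen (Ba g x r) := fun x => (hBal n g Γ hg hΓ hc x).1
  have hF := (hUsc n g hg hc h hh).1
  have : SFinite (mg g) := Helper48.LH.sf_SEG g
  have key := Helper48.LH.abs_SEG (mg g) (fun q : ℝ × E n × E n => HS g h q.1 q.2.1 q.2.2) hF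
    (Ba g z r) (2 ^ n * ∫⁻ y in Ba g z (3 * r), ENNReal.ofReal (h y) ∂(mg g))
    (fun t ht x hx => one_Sgb hMet hSga hg hΓ hc hS hop hh t ht x hx)
    (by
      intro t ht y hy
      have h2 : ∀ x, HS g h t x y = HS g h (1 - t) y x :=
        fun x => Helper48.LH.symm_SEG hsym h t x y
      have ht' : 1 - t ∈ Icc (1 / 2 : ℝ) 1 := ⟨by linarith [ht.2], by linarith [ht.1]⟩
      calc ∫⁻ x in Ba g z r, HS g h t x y ∂(mg g)
          = ∫⁻ x in Ba g z r, HS g h (1 - t) y x ∂(mg g) := lintegral_congr fun x => h2 x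
        _ ≤ _ := one_Sgb hMet hSga hg hΓ hc hS hop hh (1 - t) ht' y hy)
  refine key.trans (le_of_eq ?_)
  rw [mul_assoc, mul_assoc, mul_comm (∫⁻ y in Ba g z (3 * r), ENNReal.ofReal (h y) ∂(mg g))]

end Pool.Agent.Helper69.QD
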