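import Pool.Agent.Helper58.QD.StE
import Pool.Agent.Helper84.DSH.M_WBR

/-!
# Module WBG of project QD: the Weitzenboeck form of alternating maps, with a lower bound
-/

set_option autoImplicit false

open Set Filter Topology MeasureTheory
open Helper62.LH Helper62.DSH Helper58.QD
open scoped ContDiff ENNReal

noncomputable section

namespace Pool.Agent.Helper69.QD

open Helper84.DSH

/-- the Weitzenboeck form of the alternating map with given components -/
theorem wg_Wbg {n m : ℕ} {g : E n → Bl n} {Γ : E n → Bm n} {F : Fin n → E n → E n}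
    {G : E n → Fin n → Fin n → Fin n → ℝ} (hF : Frm g Γ F G) (x : E n) (t : Tn n (m + 1))
    (ht : Altn t) :
    Wg Γ x (fun a => F a x) (am (g x) (fun a => F a x) t ht) =
      (m.factorial : ℝ) * Wz (Rc g Γ F x) t := by
  have hO := hF.onb x
  set f : Fin n → E n := fun a => F a x with hf
  have ho : ∀ i j, g x (f i) (f j) = if i = j then 1 else 0 := hO.orth
  set α := am (g x) f t ht with hα
  have hbas : ∀ I : Fin (m + 1) → Fin n, α (fun k => f (I k)) = t I :=
    am_basis (g x) f ho t ht
  have hR : ∀ a b c, Rm Γ x (f a) (f b) (f c) = ∑ l, Rc g Γ F x a b c l • f l := by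
    intro a b c
    rw [← hO.expd (Rm Γ x (f a) (f b) (f c))]
    rfl
  have hcons : ∀ (b : Fin n) (K : Fin m → Fin n),
      α (Fin.cons (f b) (fun i => f (K i))) = t (Fin.cons b K) := by
    intro b K
    rw [← hbas (Fin.cons b K)]
    congr 1
    ext1 k
    refine Fin.cases ?_ (fun i => ?_) k
    · simp
    · simp
  -- value of alpha at a linear combination in the first place
  have hlin1 : ∀ (r : Fin n → ℝ) (K : Fin m → Fin n),
      α (Fin.cons (∑ l, r l • f l) (fun i => f (K i))) = ∑ l, r l * t (Fin.cons l K) := by
    intro r K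
    have h0 : (Fin.cons (∑ l, r l • f l) (fun i => f (K i)) : Fin (m + 1) → E n) =
        Function.update (Fin.cons 0 (fun i => f (K i)) : Fin (m + 1) → E n) 0
          (∑ l, r l • f l) := by
      rw [Fin.update_cons_zero]
    rw [h0]
    have h1 := (α.toAlternatingMap.toMultilinearMap).map_update_sum (Finset.univ) 0
      (fun l => r l • f l) (Fin.cons 0 (fun i => f (K i)) : Fin (m + 1) → E n)
    refine Eq.trans h1 ?_
    refine Finset.sum_congr rfl fun l _ => ?_
    have h2 := (α.toAlternatingMap.toMultilinearMap).map_update_smul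
      (Fin.cons 0 (fun i => f (K i)) : Fin (m + 1) → E n) 0 (r l) (f l)
    refine Eq.trans h2 ?_
    rw [Fin.update_cons_zero]
    exact congrArg (fun z => r l * z) (hcons l K)
  have hlin2 : ∀ (a : Fin n) (r : Fin n → ℝ) (K : Fin m → Fin n) (c : Fin m),
      α (Fin.cons (f a) (Function.update (fun i => f (K i)) c (∑ l, r l • f l))) =
        ∑ l, r l * t (Fin.cons a (Function.update K c l)) := by
    intro a r K c
    have h0 : ∀ v : E n, (Fin.cons (f a) (Function.update (fun i => f (K i)) c v) :
        Fin (m + 1) → E n) =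
        Function.update (Fin.cons (f a) (fun i => f (K i)) : Fin (m + 1) → E n) c.succ v := by
      intro v
      rw [Fin.cons_update]
    rw [h0]
    have h1 := (α.toAlternatingMap.toMultilinearMap).map_update_sum (Finset.univ) c.succ
      (fun l => r l • f l) (Fin.cons (f a) (fun i => f (K i)) : Fin (m + 1) → E n)
    refine Eq.trans h1 ?_
    refine Finset.sum_congr rfl fun l _ => ?_
    have h2 := (α.toAlternatingMap.toMultilinearMap).map_update_smul
      (Fin.cons (f a) (fun i => f (K i)) : Fin (m + 1) → E n) c.succ (r l) (f l)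
    refine Eq.trans h2 ?_
    rw [← h0]
    have h3 : (Function.update (fun i => f (K i)) c (f l)) =
        fun i => f (Function.update K c l i) := by
      ext1 i
      rcases eq_or_ne i c with rfl | h
      · simp
      · simp [h]
    rw [h3]
    exact congrArg (fun z => r l * z) (hcons a _)
  have hWg : Wg Γ x f α = (m.factorial : ℝ) * Wz (Rc g Γ F x) t := by
    unfold Wg Wz ipt
    rw [Finset.sum_comm, Finset.mul_sum]
    refine Finset.sum_congr rfl fun a _ => ?_
    rw [Finset.mul_sum]
    refine Finset.sum_congr rfl fun b _ => ?_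
    have hm : (m.factorial : ℝ) ≠ 0 := by positivity
    rw [mul_div_cancel₀ _ hm]
    refine Finset.sum_congr rfl fun K _ => ?_
    rw [hcons, hR, hlin1]
    have : ∀ c, α (Fin.cons (f b) (Function.update (fun i => f (K i)) c
        (Rm Γ x (f a) (f b) (f (K c))))) =
        ∑ l, Rc g Γ F x a b (K c) l * t (Fin.cons b (Function.update K c l)) := by
      intro c
      rw [hR, hlin2]
    simp only [this]
    unfold ct
    rw [rho_cons]
  exact hWg

/-- the norm of the alternating map with given components -/
theorem nsq_Wbg (hCfr : StCfr) {n m : ℕ} {g : E n → Bl n} {Γ : E n → Bm n}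
    {F : Fin n → E n → E n} {G : E n → Fin n → Fin n → Fin n → ℝ} (hF : Frm g Γ F G) (x : E n)
    (t : Tn n (m + 1)) (ht : Altn t) :
    nsq g (m + 1) x (am (g x) (fun a => F a x) t ht) = q2 t := by
  have hO := hF.onb x
  set f : Fin n → E n := fun a => F a x with hf
  have ho : ∀ i j, g x (f i) (f j) = if i = j then 1 else 0 := hO.orth
  have h1 := hCfr n g x f hO (m + 1) (am (g x) f t ht).toAlternatingMap.toMultilinearMap
    (am (g x) f t ht).toAlternatingMap.toMultilinearMap
  unfold nsq q2 ipt
  congr 1
  refine Eq.trans h1 ?_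
  refine Finset.sum_congr rfl fun I _ => ?_
  have h2 : (am (g x) f t ht) (fun k => f (I k)) = t I := am_basis (g x) f ho t ht I
  exact congrArg₂ (fun a b => a * b) h2 h2

/-- module WBG of project QD -/
theorem hWbg (hCfr : StCfr) : SWbg := by
  intro n m g Γ F G _ _ hF x lam hW t ht
  have hO := hF.onb x
  have key := hW (fun a => F a x) hO.orth (am (g x) (fun a => F a x) t ht)
  rw [wg_Wbg hF x t ht, nsq_Wbg hCfr hF x t ht] at key
  have hm : (0 : ℝ) < (m.factorial : ℝ) := by positivity
  have h1 : (m.factorial : ℝ) * (-(lam * q2 t)) ≤ (m.factorial : ℝ) * Wz (Rc g Γ F x) t := by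
    linarith
  exact le_of_mul_le_mul_left h1 hm

end Pool.Agent.Helper69.QD
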